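import Pool.Agent.Q6.SI.Main

/-!
MP_69a6f7_al, Q1 (full answer, positive): for every `n ≥ 2 ^ 200`, for `G = A_n` or `G = S_n` and
all soluble `H, K ≤ G` there is `x ∈ G` with `H ∩ K^x = 1`.  Moreover `x` can always be taken even,
also when `H` and `K` are soluble subgroups of `S_n`.
-/

set_option autoImplicit false

namespace Pool.Agent.Results.MP_69a6f7_al.LargeDegree

open Equiv

/-- The conjugate `K^x = x⁻¹ K x`. -/
def conjBy {n : ℕ} (K : Subgroup (Perm (Fin n))) (x : Perm (Fin n)) : Subgroup (Perm (Fin n)) :=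
  K.map (MulAut.conj x⁻¹).toMonoidHom

/-- The property `P(n)`: for each `G ∈ {A_n, S_n}` and all soluble subgroups `H, K ≤ G` there is
`x ∈ G` with `H ∩ K^x = 1`. -/
def PropP (n : ℕ) : Prop :=
  ∀ G : Subgroup (Perm (Fin n)), (G = alternatingGroup (Fin n) ∨ G = ⊤) →
    ∀ H K : Subgroup (Perm (Fin n)), H ≤ G → K ≤ G → Group.IsSolvable H → Group.IsSolvable K →
      ∃ x ∈ G, H ⊓ conjBy K x = ⊥

/-- For every `n ≥ 2 ^ 200` and all soluble `H, K ≤ S_n` there is an even `x` with `H ∩ K^x = 1`;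
in particular there is an integer `N` such that `P(n)` holds for all `n ≥ N`. -/
theorem result :
    (∀ n : ℕ, 2 ^ 200 ≤ n → ∀ H K : Subgroup (Perm (Fin n)), Group.IsSolvable H →
      Group.IsSolvable K → ∃ x ∈ alternatingGroup (Fin n), H ⊓ conjBy K x = ⊥) ∧
    (∃ N : ℕ, ∀ n : ℕ, N ≤ n → PropP n) := by
  have main : ∀ n : ℕ, 2 ^ 200 ≤ n → ∀ H K : Subgroup (Perm (Fin n)), Group.IsSolvable H →
      Group.IsSolvable K → ∃ x ∈ alternatingGroup (Fin n), H ⊓ conjBy K x = ⊥ := by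
    intro n hn H K hH hK
    obtain ⟨x, hx, hx2⟩ := Pool.Agent.Q6.SI.exists_good (Fin n) (by rw [Fintype.card_fin]; exact hn)
      H K hH hK
    refine ⟨x, Perm.mem_alternatingGroup.mpr hx, ?_⟩
    rw [eq_bot_iff]
    intro h hh
    rw [Subgroup.mem_inf] at hh
    obtain ⟨hh1, k, hk, hkx⟩ := hh
    rw [Subgroup.mem_bot]
    apply hx2 h hh1
    have : x * h * x⁻¹ = k := by
      rw [← hkx]
      simp [MulAut.conj_apply, mul_assoc]
    rw [this]
    exact hk
  refine ⟨main, 2 ^ 200, ?_⟩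
  intro n hn G hG H K _ _ hH hK
  obtain ⟨x, hx, hx2⟩ := main n hn H K hH hK
  refine ⟨x, ?_, hx2⟩
  rcases hG with hG | hG
  · rw [hG]
    exact hx
  · rw [hG]
    exact Subgroup.mem_top x

end Pool.Agent.Results.MP_69a6f7_al.LargeDegree
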